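import Mathlib

set_option autoImplicit false

namespace Pool.Agent.H.MP_9aaefc_al

open Module

/-- A multiplicative map on the complex numbers with torsion values sending `-1` to `-1`. -/
lemma exists_chi : ∃ χ : ℂ → ℂ, χ 1 = 1 ∧ χ (-1) = -1 ∧ (∀ a b, χ (a * b) = χ a * χ b) ∧
    ∀ a, a ≠ 0 → ∃ m : ℕ, 1 ≤ m ∧ χ a ^ m = 1 := by
  classical
  have hne : (Additive.ofMul (-1 : ℂˣ)) ≠ 0 := by
    intro h
    have h2 : (-1 : ℂˣ) = 1 := h
    have h3 := congrArg (fun u : ℂˣ => (u : ℂ)) h2
    norm_num at h3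
  obtain ⟨c, hc⟩ := CharacterModule.exists_character_apply_ne_zero_of_ne_zero hne
  let f : ℚ → ℂ := fun q => Complex.exp (2 * Real.pi * Complex.I * q)
  have hf : Function.Periodic f 1 := by
    intro q
    simp only [f]
    push_cast
    rw [mul_add, Complex.exp_add, mul_one, Complex.exp_two_pi_mul_I, mul_one]
  let e : AddCircle (1 : ℚ) → ℂ := hf.lift
  have he : ∀ q : ℚ, e (q : AddCircle (1 : ℚ)) = f q := fun q => hf.lift_coe q
  have he0 : e 0 = 1 := by
    have := he 0
    simpa [f] using this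
  have headd : ∀ x y, e (x + y) = e x * e y := by
    intro x y
    induction x using QuotientAddGroup.induction_on with
    | H x =>
    induction y using QuotientAddGroup.induction_on with
    | H y =>
    rw [← QuotientAddGroup.mk_add, he, he, he]
    simp only [f]
    push_cast
    rw [mul_add, Complex.exp_add]
  have heinj : ∀ x, e x = 1 → x = 0 := by
    intro x hx
    induction x using QuotientAddGroup.induction_on with
    | H x =>
    rw [he] at hx
    simp only [f] at hx
    obtain ⟨n, hn⟩ := Complex.exp_eq_one_iff.mp hx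
    have h2 : (2 * Real.pi * Complex.I : ℂ) ≠ 0 := Complex.two_pi_I_ne_zero
    have h3 : (x : ℂ) = n := by
      apply mul_left_cancel₀ h2
      rw [hn]; ring
    have h4 : x = n := by exact_mod_cast h3
    rw [QuotientAddGroup.eq_zero_iff]
    exact ⟨n, by simp [h4]⟩
  have hetor : ∀ x, ∃ m : ℕ, 1 ≤ m ∧ e x ^ m = 1 := by
    intro x
    induction x using QuotientAddGroup.induction_on with
    | H x =>
    refine ⟨x.den, x.den_pos, ?_⟩
    rw [he]
    simp only [f]
    rw [← Complex.exp_nat_mul]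
    apply Complex.exp_eq_one_iff.mpr
    refine ⟨x.num, ?_⟩
    have : (x.den : ℂ) * (x : ℂ) = x.num := by exact_mod_cast Rat.den_mul_eq_num x
    rw [← this]; ring
  refine ⟨fun z => if h : z = 0 then 0 else e (c (Additive.ofMul (Units.mk0 z h))), ?_, ?_, ?_, ?_⟩
  · have : Units.mk0 (1 : ℂ) one_ne_zero = 1 := by ext; rfl
    simp only [one_ne_zero, dite_false, this, ofMul_one, map_zero, he0]
  · have h1 : (-1 : ℂ) ≠ 0 := by norm_num
    have : Units.mk0 (-1 : ℂ) h1 = -1 := by ext; rfl
    simp only [h1, dite_false, this]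
    have h2 : e (c (Additive.ofMul (-1 : ℂˣ))) * e (c (Additive.ofMul (-1 : ℂˣ))) = 1 := by
      rw [← headd, ← map_add, ← ofMul_mul]
      simp [he0]
    rcases mul_self_eq_one_iff.mp h2 with h | h
    · exact absurd (heinj _ h) hc
    · exact h
  · intro a b
    by_cases ha : a = 0
    · simp [ha]
    by_cases hb : b = 0
    · simp [hb]
    have hab : a * b ≠ 0 := mul_ne_zero ha hb
    have : Units.mk0 (a * b) hab = Units.mk0 a ha * Units.mk0 b hb := by ext; rfl
    simp only [ha, hb, hab, dite_false, this, ofMul_mul, map_add, headd]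
  · intro a ha
    simp only [ha, dite_false]
    exact hetor _

section lin

variable {A B : Type} [AddCommGroup A] [Module ℂ A] [AddCommGroup B] [Module ℂ B]

lemma ind_gen [FiniteDimensional ℂ A] (φ : End ℂ A) (P : A → Prop)
    (h1 : ∀ l, ∀ a ∈ φ.maxGenEigenspace l, P a) (h0 : P 0) (h2 : ∀ a b, P a → P b → P (a + b))
    (a : A) : P a := by
  have ha : a ∈ ⨆ l, φ.maxGenEigenspace l := by
    rw [End.iSup_maxGenEigenspace_eq_top]; trivial
  exact Submodule.iSup_induction (motive := P) _ ha h1 h0 h2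

lemma exists_K [FiniteDimensional ℂ A] (φ : End ℂ A) (χ : ℂ → ℂ) :
    ∃ K : End ℂ A, ∀ l, ∀ a ∈ φ.maxGenEigenspace l, K a = χ l • a := by
  classical
  have hint : DirectSum.IsInternal φ.maxGenEigenspace :=
    DirectSum.isInternal_submodule_of_iSupIndep_of_iSup_eq_top
      φ.independent_maxGenEigenspace φ.iSup_maxGenEigenspace_eq_top
  let E := LinearEquiv.ofBijective (DirectSum.coeLinearMap φ.maxGenEigenspace) hint
  let D : (DirectSum ℂ (fun l => φ.maxGenEigenspace l)) →ₗ[ℂ] A :=
    DirectSum.toModule ℂ ℂ A (fun l => χ l • (φ.maxGenEigenspace l).subtype)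
  refine ⟨D ∘ₗ E.symm.toLinearMap, fun l a ha => ?_⟩
  have : E.symm a = DirectSum.lof ℂ ℂ (fun l => φ.maxGenEigenspace l) l ⟨a, ha⟩ := by
    rw [LinearEquiv.symm_apply_eq]
    simp [E, DirectSum.lof_eq_of]
  simp only [LinearMap.comp_apply, LinearEquiv.coe_coe, this, D, DirectSum.toModule_lof]
  simp

lemma maps_gen (φ : End ℂ A) (ψ : End ℂ B) (f : A →ₗ[ℂ] B) (ε : ℂ)
    (h : ∀ a, ψ (f a) = ε • f (φ a)) (l : ℂ) (a : A) (ha : a ∈ φ.maxGenEigenspace l) :
    f a ∈ ψ.maxGenEigenspace (ε * l) := by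
  rw [End.mem_maxGenEigenspace] at *
  obtain ⟨k, hk⟩ := ha
  refine ⟨k, ?_⟩
  have key : ∀ (k : ℕ) (a : A), ((ψ - (ε * l) • (1 : End ℂ B)) ^ k) (f a) =
      ε ^ k • f (((φ - l • (1 : End ℂ A)) ^ k) a) := by
    intro k
    induction k with
    | zero => intro a; simp
    | succ k ih =>
      intro a
      rw [pow_succ, pow_succ (φ - l • (1 : End ℂ A)), End.mul_apply, End.mul_apply]
      have : (ψ - (ε * l) • (1 : End ℂ B)) (f a) = ε • f ((φ - l • (1 : End ℂ A)) a) := by
        simp only [LinearMap.sub_apply, LinearMap.smul_apply, End.one_apply, h, map_sub, map_smul,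
          smul_sub, smul_smul]
      rw [this, map_smul, ih, smul_smul, pow_succ']
  rw [key, hk]; simp

lemma K_natural [FiniteDimensional ℂ A] (φ : End ℂ A) (ψ : End ℂ B) (f : A →ₗ[ℂ] B) (ε : ℂ)
    (h : ∀ a, ψ (f a) = ε • f (φ a)) (χ : ℂ → ℂ) (hχ : ∀ l, χ (ε * l) = ε * χ l)
    (KA : End ℂ A) (KB : End ℂ B)
    (hA : ∀ l, ∀ a ∈ φ.maxGenEigenspace l, KA a = χ l • a)
    (hB : ∀ l, ∀ a ∈ ψ.maxGenEigenspace l, KB a = χ l • a) (a : A) :
    KB (f a) = ε • f (KA a) := by
  refine ind_gen φ (fun a => KB (f a) = ε • f (KA a)) ?_ ?_ ?_ a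
  · intro l a ha
    rw [hB _ _ (maps_gen φ ψ f ε h l a ha), hA _ _ ha, hχ, map_smul, smul_smul]
  · simp
  · intro a b ha hb
    simp only [map_add, ha, hb, smul_add]

end lin

section alg

variable {A : Type} [CommRing A] [Algebra ℂ A]

lemma mul_mem_gen (φ : A →ₐ[ℂ] A) (l m : ℂ) (a b : A)
    (ha : a ∈ End.maxGenEigenspace φ.toLinearMap l)
    (hb : b ∈ End.maxGenEigenspace φ.toLinearMap m) :
    a * b ∈ End.maxGenEigenspace φ.toLinearMap (l * m) := by
  rw [End.mem_maxGenEigenspace] at ha hb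
  obtain ⟨p, hp⟩ := ha
  obtain ⟨q, hq⟩ := hb
  induction p generalizing a b q with
  | zero =>
    have : a = 0 := by simpa using hp
    simp [this]
  | succ p ihp =>
    induction q generalizing a b with
    | zero =>
      have : b = 0 := by simpa using hq
      simp [this]
    | succ q ihq =>
      have h1 : ((φ.toLinearMap - l • (1 : End ℂ A)) ^ p) ((φ.toLinearMap - l • (1 : End ℂ A)) a)
          = 0 := by
        rw [← End.mul_apply, ← pow_succ, hp]
      have h2 : ((φ.toLinearMap - m • (1 : End ℂ A)) ^ q) ((φ.toLinearMap - m • (1 : End ℂ A)) b)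
          = 0 := by
        rw [← End.mul_apply, ← pow_succ, hq]
      have h3 : ((φ.toLinearMap - m • (1 : End ℂ A)) ^ (q + 1)) (φ b) = 0 := by
        have hc : Commute ((φ.toLinearMap - m • (1 : End ℂ A)) ^ (q + 1)) φ.toLinearMap := by
          apply Commute.pow_left
          apply Commute.sub_left (Commute.refl _)
          exact (Commute.one_left _).smul_left m
        have := congrArg (fun T : End ℂ A => T b) hc.eq
        simp only [End.mul_apply, hq, map_zero] at this
        exact this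
      have e1 := ihp _ _ h1 _ h3
      have e2 := ihq _ _ hp h2
      have e3 : (φ.toLinearMap - (l * m) • (1 : End ℂ A)) (a * b) ∈
          End.maxGenEigenspace φ.toLinearMap (l * m) := by
        have : (φ.toLinearMap - (l * m) • (1 : End ℂ A)) (a * b) =
            (φ.toLinearMap - l • (1 : End ℂ A)) a * φ b +
              l • (a * (φ.toLinearMap - m • (1 : End ℂ A)) b) := by
          simp only [LinearMap.sub_apply, LinearMap.smul_apply, End.one_apply,
            AlgHom.toLinearMap_apply, map_mul]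
          simp only [Algebra.smul_def, map_mul]
          ring
        rw [this]
        exact Submodule.add_mem _ e1 (Submodule.smul_mem _ _ e2)
      rw [End.mem_maxGenEigenspace] at e3 ⊢
      obtain ⟨k, hk⟩ := e3
      exact ⟨k + 1, by rw [pow_succ, End.mul_apply, hk]⟩

lemma exists_Kalg [FiniteDimensional ℂ A] (φ : A →ₐ[ℂ] A) (χ : ℂ → ℂ) (h1 : χ 1 = 1)
    (hm : ∀ a b, χ (a * b) = χ a * χ b) :
    ∃ K : A →ₐ[ℂ] A, ∀ l, ∀ a ∈ End.maxGenEigenspace φ.toLinearMap l, K a = χ l • a := by
  obtain ⟨K, hK⟩ := exists_K φ.toLinearMap χ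
  refine ⟨AlgHom.ofLinearMap K ?_ ?_, hK⟩
  · have : (1 : A) ∈ End.maxGenEigenspace φ.toLinearMap 1 := by
      rw [End.mem_maxGenEigenspace]
      exact ⟨1, by simp⟩
    rw [hK _ _ this, h1, one_smul]
  · intro a b
    refine ind_gen φ.toLinearMap (fun a => K (a * b) = K a * K b) ?_ ?_ ?_ a
    · intro l a ha
      refine ind_gen φ.toLinearMap (fun b => K (a * b) = K a * K b) ?_ ?_ ?_ b
      · intro m b hb
        rw [hK _ _ (mul_mem_gen φ l m a b ha hb), hK _ _ ha, hK _ _ hb, hm, smul_mul_smul_comm]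
      · simp
      · intro x y hx hy
        simp only [mul_add, map_add, hx, hy]
    · simp
    · intro x y hx hy
      simp only [add_mul, map_add, hx, hy]

end alg

end Pool.Agent.H.MP_9aaefc_al
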